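import Pool.Agent.V5helper33.EHS.Stm

/-!
# Project EHS, job KAP: the primes dividing `q`
-/

set_option autoImplicit false

namespace Pool.Agent.V5helper46.EHS

open Finset Filter
open scoped Topology
open Pool.Agent.W41 (V V_pos V_le_one)
open Pool.Agent.V5helper42.RS (W TT W_mono W_upper mem_TT TT_prime)
open Pool.Agent.V5helper33.EHS (TQ)

lemma prod_ge (D : Finset ℕ) (hD : ∀ p ∈ D, p.Prime) : 1 - ∑ p ∈ D, 1 / (p : ℝ) ≤ V D := by
  classical
  induction D using Finset.induction_on with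
  | empty => simp [V]
  | insert p D hp ih =>
    have h0 : ∀ q ∈ D, q.Prime := fun q hq => hD q (mem_insert_of_mem hq)
    have h1 := ih h0
    have h2 : V (insert p D) = (1 - 1 / (p : ℝ)) * V D := by
      unfold V
      rw [prod_insert hp]
    rw [sum_insert hp, h2]
    have h3 : V D ≤ 1 := V_le_one h0
    have h4 : 0 ≤ 1 / (p : ℝ) := by positivity
    nlinarith

theorem t_KAP : Pool.Agent.V5helper33.EHS.S_KAP := by
  classical
  intro K
  obtain ⟨C, hC, hW⟩ := W_upper
  have hL : Tendsto (fun x : ℕ => Real.log x) atTop atTop :=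
    Real.tendsto_log_atTop.comp tendsto_natCast_atTop_atTop
  have hfl : Tendsto (fun x : ℕ => ⌊(Real.log x) ^ (K + 2)⌋₊) atTop atTop :=
    tendsto_nat_floor_atTop.comp ((tendsto_pow_atTop (by omega)).comp hL)
  have E1 := hfl.eventually hW
  have hc : 0 < 1 / (2 * C * ((K : ℝ) + 2)) := by positivity
  have E2 := hL.eventually (Real.isLittleO_log_id_atTop.bound hc)
  have E3 := hL.eventually_ge_atTop 2
  filter_upwards [E1, E2, E3, eventually_ge_atTop 1] with x h1 h2 h3 hx q t hq hqx ht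
  set L := Real.log x with hLdef
  have hL0 : 0 < L := by linarith
  have hx0 : (0 : ℝ) < x := by exact_mod_cast hx
  -- `log t`
  have hlt : L / 2 ≤ Real.log t := by
    have h4 : Real.log x ≤ Real.log ((t : ℝ) ^ 2) := Real.log_le_log hx0 ht
    rw [Real.log_pow] at h4
    push_cast at h4
    linarith
  set T := TT (Real.log t) with hT
  have hTp : ∀ p ∈ T, p.Prime := TT_prime _
  set D1 := T.filter (fun p => p ∣ q) with hD1
  set D2 := q.primeFactors.filter (fun p => ¬ p ∈ T) with hD2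
  have hD1p : ∀ p ∈ D1, p.Prime := fun p hp => hTp p (mem_filter.1 hp).1
  have hD2p : ∀ p ∈ D2, p.Prime := fun p hp => Nat.prime_of_mem_primeFactors (mem_filter.1 hp).1
  have hQp : ∀ p ∈ TQ t q, p.Prime := fun p hp => hTp p (mem_filter.1 hp).1
  have hVT : V T = V D1 * V (TQ t q) :=
    (prod_filter_mul_prod_filter_not T (fun p => p ∣ q) (fun p : ℕ => 1 - 1 / (p : ℝ))).symm
  have hVq : V q.primeFactors = V D1 * V D2 := by
    have e1 : q.primeFactors.filter (fun p => p ∈ T) = D1 := by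
      ext p
      rw [mem_filter, mem_filter, Nat.mem_primeFactors]
      constructor
      · rintro ⟨⟨_, h5, _⟩, h6⟩
        exact ⟨h6, h5⟩
      · rintro ⟨h5, h6⟩
        exact ⟨⟨hTp p h5, h6, by omega⟩, h5⟩
    rw [← e1]
    exact (prod_filter_mul_prod_filter_not q.primeFactors (fun p => p ∈ T)
      (fun p : ℕ => 1 - 1 / (p : ℝ))).symm
  have hφ : (Nat.totient q : ℝ) = q * V q.primeFactors := by
    have h5 := Nat.totient_eq_mul_prod_factors q
    have h6 : ((Nat.totient q : ℚ) : ℝ) = ((q * ∏ p ∈ q.primeFactors, (1 - (p : ℚ)⁻¹) : ℚ) : ℝ) := by rw [h5]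
    push_cast at h6
    rw [h6]
    unfold V
    simp only [one_div]
  have hq0 : (0 : ℝ) < q := by exact_mod_cast hq
  have hv : 0 < V (TQ t q) := V_pos hQp
  have hd1 : 0 < V D1 := V_pos hD1p
  have hd2 : 0 < V D2 := V_pos hD2p
  have hd2' : V D2 ≤ 1 := V_le_one hD2p
  have key : V T / (Nat.totient q : ℝ) = (V (TQ t q) / q) / V D2 := by
    rw [hφ, hVT, hVq]
    field_simp
  have hX : 0 < V (TQ t q) / q := div_pos hv hq0
  rw [key]
  -- the primes of `D2` are large
  have hbig : ∀ p ∈ D2, L ^ (K + 2) < (p : ℝ) := by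
    intro p hp
    have hpT : ¬ p ∈ T := (mem_filter.1 hp).2
    rw [hT, mem_TT] at hpT
    have h5 : Real.log t < W p := by
      by_contra hcon
      exact hpT ⟨hD2p p hp, not_lt.1 hcon⟩
    have h6 : W ⌊L ^ (K + 2)⌋₊ ≤ L / 2 := by
      refine h1.trans ?_
      have hfl1 : 1 ≤ ⌊L ^ (K + 2)⌋₊ := by
        apply Nat.le_floor
        push_cast
        exact one_le_pow₀ (by linarith)
      have h7 : Real.log (⌊L ^ (K + 2)⌋₊ : ℝ) ≤ ((K : ℝ) + 2) * Real.log L := by
        have h8 : Real.log (⌊L ^ (K + 2)⌋₊ : ℝ) ≤ Real.log (L ^ (K + 2)) :=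
          Real.log_le_log (by exact_mod_cast hfl1) (Nat.floor_le (by positivity))
        rw [Real.log_pow] at h8
        push_cast at h8
        exact h8
      have h9 : Real.log L ≤ 1 / (2 * C * ((K : ℝ) + 2)) * L := by
        have h10 := h2
        simp only [id_eq, Real.norm_eq_abs] at h10
        rw [abs_of_pos hL0] at h10
        exact (le_abs_self _).trans h10
      calc C * Real.log (⌊L ^ (K + 2)⌋₊ : ℝ) ≤ C * (((K : ℝ) + 2) * Real.log L) :=
            mul_le_mul_of_nonneg_left h7 hC.le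
        _ ≤ C * (((K : ℝ) + 2) * (1 / (2 * C * ((K : ℝ) + 2)) * L)) := by gcongr
        _ = L / 2 := by field_simp
    have h7 : ⌊L ^ (K + 2)⌋₊ < p := by
      by_contra hcon
      have h8 := W_mono (not_lt.1 hcon)
      linarith
    exact Nat.lt_of_floor_lt h7
  have hcard : (D2.card : ℝ) ≤ 2 * L := by
    have h5 : D2.card ≤ q.primeFactors.card := card_filter_le _ _
    have h6 : 2 ^ q.primeFactors.card ≤ q := by
      have h7 : 2 ^ q.primeFactors.card ≤ ∏ p ∈ q.primeFactors, p :=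
        pow_card_le_prod _ _ _ (fun p hp => (Nat.prime_of_mem_primeFactors hp).two_le)
      exact h7.trans (Nat.le_of_dvd hq (Nat.prod_primeFactors_dvd q))
    have h7 : (2 : ℝ) ^ D2.card ≤ x := by
      have h8 : 2 ^ D2.card ≤ x := (Nat.pow_le_pow_right (by norm_num) h5).trans (h6.trans hqx)
      exact_mod_cast h8
    have h8 : Real.log ((2 : ℝ) ^ D2.card) ≤ L := Real.log_le_log (by positivity) h7
    rw [Real.log_pow] at h8
    have h9 : (1 / 2 : ℝ) ≤ Real.log 2 := by
      have := Real.log_two_gt_d9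
      linarith
    have h10 : (0 : ℝ) ≤ D2.card := by positivity
    nlinarith
  have hsum : ∑ p ∈ D2, 1 / (p : ℝ) ≤ (L ^ K)⁻¹ := by
    have h5 : ∀ p ∈ D2, 1 / (p : ℝ) ≤ 1 / L ^ (K + 2) := fun p hp =>
      one_div_le_one_div_of_le (by positivity) (hbig p hp).le
    refine (sum_le_sum h5).trans ?_
    rw [sum_const, nsmul_eq_mul]
    calc (D2.card : ℝ) * (1 / L ^ (K + 2)) ≤ (2 * L) * (1 / L ^ (K + 2)) := by gcongr
      _ = (2 / L) * (L ^ K)⁻¹ := by rw [pow_add]; field_simp
      _ ≤ 1 * (L ^ K)⁻¹ := by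
          gcongr
          rw [div_le_one hL0]
          exact h3
      _ = (L ^ K)⁻¹ := one_mul _
  have hlow : 1 - (L ^ K)⁻¹ ≤ V D2 := by
    have := prod_ge D2 hD2p
    linarith
  constructor
  · rw [le_div_iff₀ hd2]
    nlinarith
  · calc (1 - (L ^ K)⁻¹) * (V (TQ t q) / q / V D2) ≤ V D2 * (V (TQ t q) / q / V D2) :=
          mul_le_mul_of_nonneg_right hlow (by positivity)
      _ = V (TQ t q) / q := by field_simp

end Pool.Agent.V5helper46.EHS
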